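import Pool.Agent.H21.ASY.Stmts

/-!
# ASY: row CUB, interpolation between the two bounds of CUS
-/

set_option autoImplicit false

namespace Pool.ASY

theorem cub_thm (h : S_CUS) : S_CUB := by
  obtain ⟨_, hAA, _, hAr, hc⟩ := h
  refine ⟨max 1 (AA ^ (7 / 8 : ℝ) * (4 : ℝ) ^ (1 / 8 : ℝ)), le_max_left _ _, ?_⟩
  intro T Z hT hZ
  obtain ⟨h1, h2⟩ := hc T Z hT hZ
  have h0 : 0 ≤ AA * T ^ (2 / 3 : ℝ) - Ar T Z := sub_nonneg.2 h1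
  have h3 : AA * T ^ (2 / 3 : ℝ) - Ar T Z ≤ AA * T ^ (2 / 3 : ℝ) := by
    linarith [hAr T Z]
  rw [abs_of_nonneg h0]
  generalize hx : AA * T ^ (2 / 3 : ℝ) - Ar T Z = x at h0 h2 h3
  have hA : 0 ≤ AA * T ^ (2 / 3 : ℝ) := mul_nonneg hAA.le (Real.rpow_nonneg hT.le _)
  have hB : 0 ≤ 4 * T / Z := div_nonneg (by linarith) hZ.le
  have h4 : x ≤ (AA * T ^ (2 / 3 : ℝ)) ^ (7 / 8 : ℝ) * (4 * T / Z) ^ (1 / 8 : ℝ) := by
    rcases h0.eq_or_lt with h5 | h5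
    · rw [← h5]
      exact mul_nonneg (Real.rpow_nonneg hA _) (Real.rpow_nonneg hB _)
    · have h6 : x = x ^ (7 / 8 : ℝ) * x ^ (1 / 8 : ℝ) := by
        rw [← Real.rpow_add h5]
        norm_num
      calc x = x ^ (7 / 8 : ℝ) * x ^ (1 / 8 : ℝ) := h6
        _ ≤ (AA * T ^ (2 / 3 : ℝ)) ^ (7 / 8 : ℝ) * (4 * T / Z) ^ (1 / 8 : ℝ) :=
          mul_le_mul (Real.rpow_le_rpow h0 h3 (by norm_num))
            (Real.rpow_le_rpow h0 h2 (by norm_num)) (Real.rpow_nonneg h0 _)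
            (Real.rpow_nonneg hA _)
  have h7 : (AA * T ^ (2 / 3 : ℝ)) ^ (7 / 8 : ℝ) * (4 * T / Z) ^ (1 / 8 : ℝ) =
      (AA ^ (7 / 8 : ℝ) * (4 : ℝ) ^ (1 / 8 : ℝ)) * T ^ (2 / 3 + 1 / 24 : ℝ) *
        Z ^ (-(1 / 8) : ℝ) := by
    have e1 : (T ^ (2 / 3 : ℝ)) ^ (7 / 8 : ℝ) = T ^ (7 / 12 : ℝ) := by
      rw [← Real.rpow_mul hT.le]
      norm_num
    have e2 : T ^ (2 / 3 + 1 / 24 : ℝ) = T ^ (7 / 12 : ℝ) * T ^ (1 / 8 : ℝ) := by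
      rw [← Real.rpow_add hT]
      norm_num
    rw [Real.mul_rpow hAA.le (Real.rpow_nonneg hT.le _), e1,
      Real.div_rpow (by linarith) hZ.le, Real.mul_rpow (by norm_num) hT.le, e2,
      Real.rpow_neg hZ.le]
    ring
  rw [h7] at h4
  refine h4.trans ?_
  refine mul_le_mul_of_nonneg_right ?_ (Real.rpow_nonneg hZ.le _)
  exact mul_le_mul_of_nonneg_right (le_max_right _ _) (Real.rpow_nonneg hT.le _)

end Pool.ASY
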